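import Mathlib
import Pool.Agent.Results.MP_e2d93f_co.AllK

/-!
# Semi-arc `k`-visibility graphs: insertion of a short arc
-/

set_option autoImplicit false

namespace Pool.Agent.V7H95.SA

open Pool.Agent.Results.MP_e2d93f_co.AllK Filter Topology

/-- arcs from the angle `0`, of positive length, with increasing radii -/
structure Good {n : ℕ} (A : Fin n → Arc) : Prop where
  a0 : ∀ v, (A v).a = 0
  b0 : ∀ v, 0 < (A v).b
  mono : StrictMono (fun v => (A v).r)

/-- the graph of the visible pairs -/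
def gr {n : ℕ} (k : ℕ) (A : Fin n → Arc) : SimpleGraph (Fin n) where
  Adj u v := u ≠ v ∧ KVisible k A u v
  symm := ⟨fun _ _ h => ⟨h.1.symm, KVisible_symm h.2⟩⟩
  loopless := ⟨fun _ h => h.1 rfl⟩

lemma norm_pt (x φ : ℝ) : ‖pt x φ‖ = |x| := by
  unfold pt
  rw [norm_mul, Complex.norm_exp_ofReal_mul_I, mul_one, Complex.norm_real, Real.norm_eq_abs]

lemma pt_sin {x r φ ψ : ℝ} (h : pt x φ = pt r ψ) : x * Real.sin (φ - ψ) = 0 := by
  have h1 : (x : ℂ) * Complex.exp (((φ - ψ : ℝ) : ℂ) * Complex.I) = r := by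
    have h2 : Complex.exp (((φ - ψ : ℝ) : ℂ) * Complex.I) =
        Complex.exp ((φ : ℂ) * Complex.I) * Complex.exp (-((ψ : ℂ) * Complex.I)) := by
      rw [← Complex.exp_add]
      congr 1
      push_cast
      ring
    unfold pt at h
    rw [h2, ← mul_assoc, h, mul_assoc, ← Complex.exp_add, add_neg_cancel, Complex.exp_zero,
      mul_one]
  have h2 := congrArg Complex.im h1
  rw [Complex.im_ofReal_mul, Complex.exp_ofReal_mul_I_im, Complex.ofReal_im] at h2
  exact h2

lemma Good.isSemiArc {n : ℕ} (k : ℕ) {A : Fin n → Arc} (h : Good A) :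
    IsSemiArcVisibility k (gr k A) := by
  refine ⟨A, h.a0, fun u v huv => ?_, fun u v huv => ⟨fun h => h.2, fun h => ⟨huv, h⟩⟩⟩
  rw [Set.disjoint_left]
  rintro z ⟨φ, -, rfl⟩ ⟨ψ, -, h'⟩
  have h2 := congrArg (fun z : ℂ => ‖z‖) h'
  simp only [norm_pt] at h2
  rw [abs_of_pos (A u).hr, abs_of_pos (A v).hr] at h2
  exact huv (h.mono.injective h2)

/-- a visible pair stays visible when a short arc is inserted -/
lemma keep {n k : ℕ} {A : Fin n → Arc} {u v : Fin n} (h : KVisible k A u v) :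
    ∃ δ : ℝ, 0 < δ ∧ ∀ N : Arc, N.a = 0 → N.b < δ → ∀ p : Fin (n + 1),
      KVisible k (p.insertNth N A : Fin (n + 1) → Arc) (p.succAbove u) (p.succAbove v) := by
  obtain ⟨s, t, φ₁, φ₂, hs, ht, hst, h1, h2, h3, h4, h5⟩ := h
  have hpi := Real.pi_pos
  set m : ℤ := ⌊φ₁ / Real.pi⌋ with hm
  have hm1 : (m : ℝ) * Real.pi ≤ φ₁ := by
    have := Int.floor_le (φ₁ / Real.pi)
    rwa [← hm, le_div_iff₀ hpi] at this
  have hm2 : φ₁ < ((m : ℝ) + 1) * Real.pi := by
    have := Int.lt_floor_add_one (φ₁ / Real.pi)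
    rwa [← hm, div_lt_iff₀ hpi] at this
  obtain ⟨c, hc1, hc2, hc3⟩ : ∃ c, φ₁ < c ∧ c ≤ φ₂ ∧ c ≤ ((m : ℝ) + 1) * Real.pi :=
    ⟨min φ₂ (((m : ℝ) + 1) * Real.pi), lt_min h1 hm2, min_le_left _ _, min_le_right _ _⟩
  refine ⟨(2 * φ₁ + c) / 3 - m * Real.pi, by linarith, fun N hN hb p =>
    ⟨s, t, (2 * φ₁ + c) / 3, (φ₁ + 2 * c) / 3, hs, ht, hst, by linarith, by linarith, ?_, ?_, ?_⟩⟩
  · rw [Fin.insertNth_apply_succAbove]
    refine subset_trans ?_ h3
    rintro z ⟨φ, ⟨h6, h7⟩, rfl⟩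
    exact ⟨φ, ⟨by linarith, by linarith⟩, rfl⟩
  · rw [Fin.insertNth_apply_succAbove]
    refine subset_trans ?_ h4
    rintro z ⟨φ, ⟨h6, h7⟩, rfl⟩
    exact ⟨φ, ⟨by linarith, by linarith⟩, rfl⟩
  · refine le_trans (Set.encard_le_encard ?_) (le_trans (Set.encard_image_le p.succAbove _) h5)
    rintro w ⟨hw1, hw2, z, ⟨φ, ⟨h6, h7⟩, x, hx, rfl⟩, hz⟩
    rcases eq_or_ne w p with rfl | hwp
    · exfalso
      rw [Fin.insertNth_apply_same] at hz
      obtain ⟨ψ, ⟨h8, h9⟩, h10⟩ := hz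
      have h11 := congrArg (fun z : ℂ => ‖z‖) h10
      simp only [norm_pt] at h11
      rw [abs_of_pos N.hr] at h11
      have h12 : x ≠ 0 := by
        rintro rfl
        rw [abs_zero] at h11
        exact N.hr.ne h11
      have h13 := (mul_eq_zero.1 (pt_sin h10)).resolve_left h12
      obtain ⟨j, hj⟩ := Real.sin_eq_zero_iff.1 h13
      rw [hN] at h8
      have h14 : (m : ℝ) * Real.pi < j * Real.pi := by linarith
      have h15 : (j : ℝ) * Real.pi < (m + 1) * Real.pi := by linarith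
      have h16 := lt_of_mul_lt_mul_right h14 hpi.le
      have h17 := lt_of_mul_lt_mul_right h15 hpi.le
      have h18 : m < j := by exact_mod_cast h16
      have h19 : j < m + 1 := by exact_mod_cast h17
      omega
    · obtain ⟨w', rfl⟩ := Fin.exists_succAbove_eq hwp
      rw [Fin.insertNth_apply_succAbove] at hz
      refine ⟨w', ⟨fun h => hw1 (by rw [h]), fun h => hw2 (by rw [h]), pt x φ,
        ⟨φ, ⟨by linarith, by linarith⟩, x, hx, rfl⟩, hz⟩, rfl⟩

/-- arcs of near ranks see each other -/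
lemma fresh {n k : ℕ} {B : Fin n → Arc} (hB : Good B) {u v : Fin n} (huv : u.1 < v.1)
    (hk : v.1 ≤ u.1 + k + 1) {ε : ℝ} (hε : 0 < ε) (h1 : ε ≤ (B u).b) (h2 : ε ≤ (B v).b)
    (hπ : ε < Real.pi) : KVisible k B u v := by
  have hr : (B u).r < (B v).r := hB.mono huv
  refine ⟨(B u).r, (B v).r, 0, ε, (B u).hr.ne', (B v).hr.ne', hr.ne, hε, by linarith, ?_, ?_, ?_⟩
  · rintro z ⟨φ, ⟨h6, h7⟩, rfl⟩
    exact ⟨φ, ⟨by rw [hB.a0]; exact h6, by linarith⟩, rfl⟩
  · rintro z ⟨φ, ⟨h6, h7⟩, rfl⟩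
    exact ⟨φ, ⟨by rw [hB.a0]; exact h6, by linarith⟩, rfl⟩
  · apply encard_le n k _ (Finset.Ioo u.1 v.1) (by rw [Nat.card_Ioo]; omega)
    rintro w ⟨hw1, hw2, z, ⟨φ, -, x, hx, rfl⟩, ψ, -, hz⟩
    rw [Set.uIcc_of_le hr.le] at hx
    have h11 := congrArg (fun z : ℂ => ‖z‖) hz
    simp only [norm_pt] at h11
    rw [abs_of_pos (B w).hr, abs_of_pos (lt_of_lt_of_le (B u).hr hx.1)] at h11
    rw [h11] at hx
    have h3 : u ≤ w := (hB.mono.le_iff_le).1 hx.1
    have h4 : w ≤ v := (hB.mono.le_iff_le).1 hx.2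
    rw [Finset.mem_Ioo]
    have h7 : u < w := lt_of_le_of_ne h3 (Ne.symm hw1)
    have h8 : w < v := lt_of_le_of_ne h4 hw2
    exact ⟨h7, h8⟩

lemma insert_good {n : ℕ} {A : Fin n → Arc} (hA : Good A) (p : Fin (n + 1)) (N : Arc)
    (hlo : ∀ v : Fin n, v.1 < p.1 → (A v).r < N.r) (hhi : ∀ v : Fin n, p.1 ≤ v.1 → N.r < (A v).r)
    (hN : N.a = 0) (hb : 0 < N.b) : Good (p.insertNth N A : Fin (n + 1) → Arc) := by
  refine ⟨fun v => ?_, fun v => ?_, fun i j hij => ?_⟩
  · rcases eq_or_ne v p with rfl | h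
    · rw [Fin.insertNth_apply_same]; exact hN
    · obtain ⟨w, rfl⟩ := Fin.exists_succAbove_eq h
      rw [Fin.insertNth_apply_succAbove]; exact hA.a0 w
  · rcases eq_or_ne v p with rfl | h
    · rw [Fin.insertNth_apply_same]; exact hb
    · obtain ⟨w, rfl⟩ := Fin.exists_succAbove_eq h
      rw [Fin.insertNth_apply_succAbove]; exact hA.b0 w
  · rcases eq_or_ne i p with rfl | hi
    · obtain ⟨j, rfl⟩ := Fin.exists_succAbove_eq hij.ne'
      simp only [Fin.insertNth_apply_same, Fin.insertNth_apply_succAbove]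
      exact hhi j (Fin.lt_succAbove_iff_le_castSucc _ _ |>.1 hij)
    · obtain ⟨i, rfl⟩ := Fin.exists_succAbove_eq hi
      rcases eq_or_ne j p with rfl | hj
      · simp only [Fin.insertNth_apply_same, Fin.insertNth_apply_succAbove]
        exact hlo i (Fin.succAbove_lt_iff_castSucc_lt _ _ |>.1 hij)
      · obtain ⟨j, rfl⟩ := Fin.exists_succAbove_eq hj
        simp only [Fin.insertNth_apply_succAbove]
        exact hA.mono (Fin.succAbove_lt_succAbove_iff.1 hij)

lemma step (k n : ℕ) (hn : 2 * (k + 1) ≤ n) (A : Fin n → Arc) (hA : Good A) :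
    ∃ A' : Fin (n + 1) → Arc, Good A' ∧
      (gr k A).edgeSet.ncard + 2 * (k + 1) ≤ (gr k A').edgeSet.ncard := by
  classical
  have hpi := Real.pi_pos
  have e1 : ∀ᶠ δ in 𝓝[>] (0 : ℝ), ∀ u v : Fin n, KVisible k A u v → ∀ N : Arc, N.a = 0 →
      N.b < δ → ∀ p : Fin (n + 1),
      KVisible k (p.insertNth N A : Fin (n + 1) → Arc) (p.succAbove u) (p.succAbove v) := by
    rw [eventually_all]
    intro u
    rw [eventually_all]
    intro v
    by_cases h : KVisible k A u v
    · obtain ⟨δ, h0, h1⟩ := keep h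
      filter_upwards [Ioo_mem_nhdsGT h0] with x hx _ N hN hb p
      exact h1 N hN (hb.trans hx.2) p
    · exact Eventually.of_forall fun _ h' => absurd h' h
  have e2 : ∀ᶠ δ in 𝓝[>] (0 : ℝ), ∀ v : Fin n, δ < (A v).b := by
    rw [eventually_all]
    intro v
    filter_upwards [Ioo_mem_nhdsGT (hA.b0 v)] with x hx
    exact hx.2
  have e3 : ∀ᶠ δ in 𝓝[>] (0 : ℝ), 0 < δ ∧ δ < Real.pi := by
    filter_upwards [Ioo_mem_nhdsGT hpi] with x hx
    exact ⟨hx.1, hx.2⟩
  obtain ⟨δ, h1, h2, h3, h4⟩ := (e1.and (e2.and e3)).exists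
  let p : Fin (n + 1) := ⟨k + 1, by omega⟩
  have hr : (A ⟨k, by omega⟩).r < (A ⟨k + 1, by omega⟩).r := hA.mono (by simp)
  let N : Arc :=
    { r := ((A ⟨k, by omega⟩).r + (A ⟨k + 1, by omega⟩).r) / 2
      a := 0
      b := δ / 2
      hr := by
        have := (A ⟨k, by omega⟩).hr
        linarith
      ha0 := le_rfl
      ha1 := by linarith
      hab := by linarith
      hb := by linarith }
  have hG : Good (p.insertNth N A : Fin (n + 1) → Arc) := by
    apply insert_good hA p N ?_ ?_ rfl (by change 0 < δ / 2; linarith)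
    · intro v hv
      have h5 : (A v).r ≤ (A ⟨k, by omega⟩).r := hA.mono.monotone (by
        rw [Fin.le_def]
        change v.1 < k + 1 at hv
        change v.1 ≤ k
        omega)
      change (A v).r < ((A ⟨k, by omega⟩).r + (A ⟨k + 1, by omega⟩).r) / 2
      linarith
    · intro v hv
      have h5 : (A ⟨k + 1, by omega⟩).r ≤ (A v).r := hA.mono.monotone (by
        rw [Fin.le_def]
        exact hv)
      change ((A ⟨k, by omega⟩).r + (A ⟨k + 1, by omega⟩).r) / 2 < (A v).r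
      linarith
  refine ⟨p.insertNth N A, hG, ?_⟩
  set S1 : Set (Sym2 (Fin (n + 1))) := Sym2.map p.succAbove '' (gr k A).edgeSet with hS1
  set S2 : Set (Sym2 (Fin (n + 1))) :=
    Set.range (fun i : Fin (2 * (k + 1)) => s(p, p.succAbove (Fin.castLE hn i))) with hS2
  have c1 : S1.ncard = (gr k A).edgeSet.ncard :=
    Set.ncard_image_of_injective _ (Sym2.map.injective Fin.succAbove_right_injective)
  have c2 : S2.ncard = 2 * (k + 1) := by
    rw [hS2, ← Set.image_univ, Set.ncard_image_of_injective, Set.ncard_univ, Nat.card_eq_fintype_card,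
      Fintype.card_fin]
    intro i j hij
    simp only [Sym2.eq_iff] at hij
    rcases hij with ⟨-, h⟩ | ⟨h, -⟩
    · have h6 := Fin.succAbove_right_injective h
      exact Fin.castLE_injective hn h6
    · exact absurd h.symm (Fin.succAbove_ne _ _)
  have c3 : Disjoint S1 S2 := by
    rw [Set.disjoint_left]
    rintro e ⟨e', -, rfl⟩ ⟨i, hi⟩
    have h5 : p ∈ Sym2.map p.succAbove e' := by
      rw [← hi]
      exact Sym2.mem_mk_left _ _
    rw [Sym2.mem_map] at h5
    obtain ⟨a, -, ha⟩ := h5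
    exact Fin.succAbove_ne _ _ ha
  have c4 : S1 ∪ S2 ⊆ (gr k (p.insertNth N A : Fin (n + 1) → Arc)).edgeSet := by
    rintro e (⟨e', he', rfl⟩ | ⟨i, rfl⟩)
    · induction e' with
      | _ x y =>
        rw [SimpleGraph.mem_edgeSet] at he'
        rw [Sym2.map_mk, SimpleGraph.mem_edgeSet]
        exact ⟨fun h => he'.1 (Fin.succAbove_right_injective h),
          h1 x y he'.2 N rfl (by change δ / 2 < δ; linarith) p⟩
    · simp only [SimpleGraph.mem_edgeSet]
      refine ⟨(Fin.succAbove_ne _ _).symm, ?_⟩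
      have hi := i.2
      have h5 : ((p.insertNth N A : Fin (n + 1) → Arc) p).b = δ / 2 := by
        rw [Fin.insertNth_apply_same]
      have h6 : δ / 2 ≤ ((p.insertNth N A : Fin (n + 1) → Arc)
          (p.succAbove (Fin.castLE hn i))).b := by
        rw [Fin.insertNth_apply_succAbove]
        have := h2 (Fin.castLE hn i)
        linarith
      by_cases hc : i.1 < k + 1
      · have h7 : (p.succAbove (Fin.castLE hn i)).1 = i.1 := by
          rw [Fin.succAbove_of_castSucc_lt _ _ (by rw [Fin.lt_def]; exact hc)]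
          rfl
        exact KVisible_symm (fresh hG (by rw [h7]; exact hc) (by
          rw [h7]
          change k + 1 ≤ i.1 + k + 1
          omega) (ε := δ / 2) (by linarith) h6 h5.ge (by linarith))
      · have h7 : (p.succAbove (Fin.castLE hn i)).1 = i.1 + 1 := by
          rw [Fin.succAbove_of_le_castSucc _ _ (by rw [Fin.le_def]; exact not_lt.1 hc)]
          rfl
        exact fresh hG (by rw [h7]; change k + 1 < i.1 + 1; omega) (by
          rw [h7]
          change i.1 + 1 ≤ k + 1 + k + 1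
          omega) (ε := δ / 2) (by linarith) h5.ge h6 (by linarith)
  calc (gr k A).edgeSet.ncard + 2 * (k + 1) = (S1 ∪ S2).ncard := by
        rw [Set.ncard_union_eq c3 (Set.toFinite _) (Set.toFinite _), c1, c2]
    _ ≤ _ := Set.ncard_le_ncard c4 (Set.toFinite _)

/-- the complete graph on `3k+4` vertices and short arcs -/
theorem iter (k j : ℕ) : ∃ A : Fin (3 * k + 4 + j) → Arc, Good A ∧
    (3 * k + 4).choose 2 + 2 * (k + 1) * j ≤ (gr k A).edgeSet.ncard := by
  induction j with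
  | zero =>
    refine ⟨arc k, ⟨fun v => rfl, fun v => ?_, fun u v huv => ?_⟩, ?_⟩
    · change 0 < endAngle k v
      unfold endAngle T
      have h1 := un_pos k
      have h2 := Real.pi_pos
      have h3 : (0 : ℝ) < ((if (v : ℕ) ≤ k then k + 3 + 2 * (v : ℕ) else if (v : ℕ) ≤ 2 * k + 2 then
          (v : ℕ) - k else k + 4 + 2 * ((v : ℕ) - (2 * k + 3)) : ℕ) : ℝ) := by
        rw [Nat.cast_pos]
        split_ifs <;> omega
      have h4 := mul_pos h1 h3
      split_ifs at h4 ⊢ <;> linarith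
    · change ((u : ℕ) : ℝ) + 1 < (v : ℕ) + 1
      have : ((u : ℕ) : ℝ) < (v : ℕ) := by exact_mod_cast huv
      linarith
    · have h : gr k (arc k) = ⊤ := by
        ext u v
        rw [SimpleGraph.top_adj]
        refine ⟨fun h => h.1, fun huv => ⟨huv, ?_⟩⟩
        rcases lt_or_gt_of_ne (fun h : u.1 = v.1 => huv (Fin.ext h)) with h | h
        · exact vis k u v h
        · exact KVisible_symm (vis k v u h)
      classical
      change _ ≤ (gr k (arc k)).edgeSet.ncard
      rw [h, ← SimpleGraph.coe_edgeFinset, Set.ncard_coe_finset,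
        SimpleGraph.card_edgeFinset_top_eq_card_choose_two]
      simp
  | succ j ih =>
    obtain ⟨A, hA, h⟩ := ih
    obtain ⟨A', hA', h'⟩ := step k (3 * k + 4 + j) (by omega) A hA
    refine ⟨A', hA', le_trans ?_ h'⟩
    have : 2 * (k + 1) * (j + 1) = 2 * (k + 1) * j + 2 * (k + 1) := by ring
    omega

/-- **the lower bound for all `n ≥ 3k+4`** -/
theorem lower' (k n : ℕ) (h : 3 * k + 4 ≤ n) : ∃ G : SimpleGraph (Fin n),
    IsSemiArcVisibility k G ∧
      (3 * k + 4).choose 2 + 2 * (k + 1) * (n - (3 * k + 4)) ≤ G.edgeSet.ncard := by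
  obtain ⟨j, rfl⟩ := Nat.exists_eq_add_of_le h
  obtain ⟨A, hA, h'⟩ := iter k j
  refine ⟨gr k A, hA.isSemiArc k, ?_⟩
  rw [Nat.add_sub_cancel_left]
  exact h'

end Pool.Agent.V7H95.SA
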