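import Pool.Agent.V7H95.SA.Low

/-!
# Semi-arc `k`-visibility graphs with many edges: the visible pairs
-/

set_option autoImplicit false

namespace Pool.Agent.V7H95.SA

open Pool.Agent.Results.MP_e2d93f_co.AllK Finset

/-- jump over the short arcs -/
def gg (K n y : ℕ) : ℕ := if y < 4 * K then y else n + y - 5 * K

/-- the partners of the arc `x` -/
def qq (K n x i : ℕ) : ℕ :=
  if x < K then (if i < K then K + i else if i < K + x then i - K else gg K n (2 * K + 1 + i - x))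
  else if x < 2 * K then (if i < K then x + 1 + i else n + i - 2 * K)
  else if x < 4 * K then (if i < K then gg K n (x + 1 + i) else if x ≤ 3 * K then i - K else i)
  else if x + K < n then (if i < K then x + 1 + i else 2 * K + i)
  else (if i < K then 2 * K + i else x + 1 + i - K)

/-- the number of the partners -/
def cc (K n x : ℕ) : ℕ := if x + K < n then 2 * K else n - 1 - x + K

variable {K n : ℕ}

/-- the cases -/
inductive QS (K n x i y : ℕ) : Prop
  | c1 (h1 : x < K) (h2 : i < K) (h3 : y = K + i)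
  | c2 (h1 : x < K) (h2 : K ≤ i) (h3 : i < K + x) (h4 : y = i - K)
  | c3 (h1 : x < K) (h2 : K + x ≤ i) (h3 : i < 2 * K) (h4 : y < 4 * K) (h5 : y + x = 2 * K + 1 + i)
  | c4 (h1 : x = 0) (h2 : i + 1 = 2 * K) (h3 : y + K = n)
  | c5 (h1 : K ≤ x) (h2 : x < 2 * K) (h3 : i < K) (h4 : y = x + 1 + i)
  | c6 (h1 : K ≤ x) (h2 : x < 2 * K) (h3 : K ≤ i) (h4 : i < 2 * K) (h5 : y + 2 * K = n + i)
  | c7 (h1 : 2 * K ≤ x) (h2 : y < 4 * K) (h3 : i < K) (h4 : y = x + 1 + i)
  | c8 (h1 : x < 4 * K) (h2 : 4 * K ≤ x + 1 + i) (h3 : i < K) (h4 : y + 5 * K = n + (x + 1 + i))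
  | c9 (h1 : 2 * K ≤ x) (h2 : x ≤ 3 * K) (h3 : i < 2 * K) (h4 : y + K = i)
  | c10 (h1 : 3 * K < x) (h2 : x < 4 * K) (h3 : K ≤ i) (h4 : i < 2 * K) (h5 : y = i)
  | c11 (h1 : 4 * K ≤ x) (h2 : x + K < n) (h3 : i < K) (h4 : y = x + 1 + i)
  | c12 (h1 : 4 * K ≤ x) (h2 : x + K < n) (h3 : K ≤ i) (h4 : i < 2 * K) (h5 : y = 2 * K + i)
  | c13 (h1 : n ≤ x + K) (h2 : i < K) (h3 : y = 2 * K + i)
  | c14 (h1 : n ≤ x + K) (h2 : K ≤ i) (h3 : y < n) (h4 : y + K = x + 1 + i)

lemma qq_spec (hK : 1 ≤ K) (hn : 5 * K ≤ n) {x i : ℕ} (hx : x < n) (hi : i < cc K n x) :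
    QS K n x i (qq K n x i) := by
  unfold cc at hi
  rcases Nat.lt_or_ge x K with h1 | h1
  · rw [if_pos (by omega)] at hi
    have e : qq K n x i = if i < K then K + i else if i < K + x then i - K else
        gg K n (2 * K + 1 + i - x) := if_pos h1
    rcases Nat.lt_or_ge i K with h2 | h2
    · rw [e, if_pos h2]
      exact .c1 h1 h2 rfl
    · rw [if_neg (by omega)] at e
      rcases Nat.lt_or_ge i (K + x) with h3 | h3
      · rw [e, if_pos h3]
        exact .c2 h1 h2 h3 rfl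
      · rw [if_neg (by omega)] at e
        rw [e]
        unfold gg
        rcases Nat.lt_or_ge (2 * K + 1 + i - x) (4 * K) with h4 | h4
        · rw [if_pos h4]
          exact .c3 h1 h3 hi h4 (by omega)
        · rw [if_neg (by omega)]
          exact .c4 (by omega) (by omega) (by omega)
  rcases Nat.lt_or_ge x (2 * K) with h2 | h2
  · rw [if_pos (by omega)] at hi
    have e : qq K n x i = if i < K then x + 1 + i else n + i - 2 * K := by
      unfold qq
      rw [if_neg (by omega), if_pos h2]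
    rcases Nat.lt_or_ge i K with h3 | h3
    · rw [e, if_pos h3]
      exact .c5 h1 h2 h3 rfl
    · rw [e, if_neg (by omega)]
      exact .c6 h1 h2 h3 hi (by omega)
  rcases Nat.lt_or_ge x (4 * K) with h3 | h3
  · rw [if_pos (by omega)] at hi
    have e : qq K n x i = if i < K then gg K n (x + 1 + i) else if x ≤ 3 * K then i - K else i := by
      unfold qq
      rw [if_neg (by omega), if_neg (by omega), if_pos h3]
    rcases Nat.lt_or_ge i K with h4 | h4
    · rw [e, if_pos h4]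
      unfold gg
      rcases Nat.lt_or_ge (x + 1 + i) (4 * K) with h5 | h5
      · rw [if_pos h5]
        exact .c7 h2 h5 h4 rfl
      · rw [if_neg (by omega)]
        exact .c8 h3 h5 h4 (by omega)
    · rw [if_neg (by omega)] at e
      rcases Nat.lt_or_ge (3 * K) x with h5 | h5
      · rw [e, if_neg (by omega)]
        exact .c10 h5 h3 h4 hi rfl
      · rw [e, if_pos h5]
        exact .c9 h2 h5 hi (by omega)
  rcases Nat.lt_or_ge (x + K) n with h4 | h4
  · rw [if_pos h4] at hi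
    have e : qq K n x i = if i < K then x + 1 + i else 2 * K + i := by
      unfold qq
      rw [if_neg (by omega), if_neg (by omega), if_neg (by omega), if_pos h4]
    rcases Nat.lt_or_ge i K with h5 | h5
    · rw [e, if_pos h5]
      exact .c11 h3 h4 h5 rfl
    · rw [e, if_neg (by omega)]
      exact .c12 h3 h4 h5 hi rfl
  · rw [if_neg (by omega)] at hi
    have e : qq K n x i = if i < K then 2 * K + i else x + 1 + i - K := by
      unfold qq
      rw [if_neg (by omega), if_neg (by omega), if_neg (by omega), if_neg (by omega)]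
    rcases Nat.lt_or_ge i K with h5 | h5
    · rw [e, if_pos h5]
      exact .c13 h4 h5 rfl
    · rw [e, if_neg (by omega)]
      exact .c14 h4 h5 (by omega) (by omega)

lemma qq_lt (hK : 1 ≤ K) (hn : 5 * K ≤ n) {x i : ℕ} (hx : x < n) (hi : i < cc K n x) :
    qq K n x i < n := by
  have h := qq_spec hK hn hx hi
  generalize qq K n x i = y at h ⊢
  clear hi
  cases h <;> omega

lemma qq_ne (hK : 1 ≤ K) (hn : 5 * K ≤ n) {x i : ℕ} (hx : x < n) (hi : i < cc K n x) :
    x ≠ qq K n x i := by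
  have h := qq_spec hK hn hx hi
  generalize qq K n x i = y at h ⊢
  clear hi
  cases h <;> omega

lemma qq_inj (hK : 1 ≤ K) (hn : 5 * K ≤ n) {x i j : ℕ} (hx : x < n) (hi : i < cc K n x)
    (hj : j < cc K n x) (h : qq K n x i = qq K n x j) : i = j := by
  have h1 := qq_spec hK hn hx hi
  have h2 := qq_spec hK hn hx hj
  rw [← h] at h2
  generalize qq K n x i = y at h1 h2
  clear hi hj h
  cases h1 <;> cases h2 <;> omega

lemma qq_swap (hK : 1 ≤ K) (hn : 5 * K ≤ n) {x y i j : ℕ} (hx : x < n) (hi : i < cc K n x)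
    (hy : y < n) (hj : j < cc K n y) (h : qq K n x i = y) (h' : qq K n y j = x) : False := by
  have h1 := qq_spec hK hn hx hi
  have h2 := qq_spec hK hn hy hj
  rw [h] at h1
  rw [h'] at h2
  clear hi hj h h'
  cases h1 <;> cases h2 <;> omega

/-- near arcs see each other -/
lemma near (hn : 5 * K ≤ n) {k : ℕ} (hk : K = k + 1) (u v : Fin n) (h : (u : ℕ) < v)
    (h' : (v : ℕ) ≤ u + K) : KVisible k (arc hn) u v := by
  refine visFF hn (t := 1) le_rfl (by have := u.2; omega) u v h (Or.inr (tau_pos K _))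
    (Or.inr (tau_pos K _)) (Ioo u v) (by rw [Nat.card_Ioo]; omega) ?_
  intro w h1 h2 _
  exact mem_Ioo.2 ⟨h1, h2⟩


lemma ab_cases (hn : 5 * K ≤ n) {t w : ℕ} (h : AB K n t w) :
    (2 * K ≤ w ∧ w ≤ 3 * K ∧ w < 4 * K ∧ t + 2 * K ≤ w + 1) ∨
    (3 * K < w ∧ w < 4 * K ∧ t + K ≤ w + 1) ∨ (n ≤ w + K ∧ t ≤ w + 1) := by
  obtain ⟨h1, h2⟩ := h
  unfold Long at h1
  unfold tau at h2
  split_ifs at h2 <;> omega

lemma af_cases (hn : 5 * K ≤ n) {t w : ℕ} (h : AF K n t w) :
    (w < K ∧ t + w ≤ 2 * K + 1) ∨ (K ≤ w ∧ w < 2 * K ∧ t ≤ w + 2 * K + 1) ∨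
    (2 * K ≤ w ∧ w < 4 * K) ∨ (4 * K ≤ w ∧ t ≤ w + 1) ∨ n ≤ w + K := by
  unfold AF Long tau at h
  rcases h with h | h
  · omega
  · split_ifs at h <;> omega

lemma af_C {t w : ℕ} (h : w < K) (h' : t + w ≤ 2 * K + 1) : AF K n t w := by
  right
  unfold tau
  rw [if_pos h]
  omega

lemma af_B {t w : ℕ} (h : K ≤ w) (h1 : w < 2 * K) (h' : t ≤ w + 2 * K + 1) : AF K n t w := by
  right
  unfold tau
  rw [if_neg (by omega), if_pos h1]
  exact h'

lemma af_L {t w : ℕ} (h : 2 * K ≤ w) (h1 : w < 4 * K) : AF K n t w := Or.inl (Or.inl ⟨h, h1⟩)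

lemma af_A {t w : ℕ} (hK : 1 ≤ K) (h : 4 * K ≤ w) (h' : t ≤ w + 1) : AF K n t w := by
  right
  unfold tau
  rw [if_neg (by omega), if_neg (by omega), if_neg (by omega), if_neg (by omega)]
  exact h'

lemma ab_D {t w : ℕ} (hK : 1 ≤ K) (h : 2 * K ≤ w) (h1 : w ≤ 3 * K) (h' : t + 2 * K ≤ w + 1) :
    AB K n t w := by
  refine ⟨Or.inl ⟨h, by omega⟩, ?_⟩
  unfold tau
  rw [if_neg (by omega), if_neg (by omega), if_pos h1]
  omega

lemma ab_E {t w : ℕ} (h : 3 * K < w) (h1 : w < 4 * K) (h' : t + K ≤ w + 1) :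
    AB K n t w := by
  refine ⟨Or.inl ⟨by omega, h1⟩, ?_⟩
  unfold tau
  rw [if_neg (by omega), if_neg (by omega), if_neg (by omega), if_pos h1]
  omega

lemma ab_F {t w : ℕ} (hK : 1 ≤ K) (hn : 5 * K ≤ n) (h : n ≤ w + K) (h' : t ≤ w + 1) :
    AB K n t w := by
  refine ⟨Or.inr h, ?_⟩
  unfold tau
  rw [if_neg (by omega), if_neg (by omega), if_neg (by omega), if_neg (by omega)]
  exact h'

lemma v1 (hn : 5 * K ≤ n) {k : ℕ} (hk : K = k + 1) (u v : Fin n) (h1 : (u : ℕ) < K)
    (h2 : K ≤ (v : ℕ)) (h3 : (v : ℕ) < 2 * K) : KVisible k (arc hn) u v := by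
  refine visFF hn (t := 2 * K + 1 - u) (by omega) (by omega) u v (by omega)
    (af_C h1 (by omega)) (af_B h2 h3 (by omega)) (Ico K v) (by rw [Nat.card_Ico]; omega) ?_
  intro w h4 h5 hw
  have := af_cases hn hw
  rw [mem_Ico]
  omega

lemma v3 (hn : 5 * K ≤ n) {k : ℕ} (hk : K = k + 1) (u v : Fin n) (h1 : (u : ℕ) < K)
    (h2 : 3 * K < (v : ℕ)) (h3 : (v : ℕ) < 4 * K) (h4 : (v : ℕ) + u ≤ 4 * K) :
    KVisible k (arc hn) u v := by
  refine KVisible.symm' (visBF hn (t := 2 * K + 1 - u) (by omega) (by omega) v u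
    (ab_E h2 h3 (by omega)) (af_C h1 (by omega)) (Ico (3 * K + 1) v ∪ Ico 0 u)
    ((card_union_le _ _).trans (by rw [Nat.card_Ico, Nat.card_Ico]; omega)) ?_ ?_)
  · intro w h5 hw
    have := ab_cases hn hw
    rw [mem_union, mem_Ico, mem_Ico]
    omega
  · intro w h5 hw
    rw [mem_union, mem_Ico, mem_Ico]
    omega

lemma v4 (hn : 5 * K ≤ n) {k : ℕ} (hk : K = k + 1) (u v : Fin n) (h1 : (u : ℕ) = 0)
    (h2 : (v : ℕ) + K = n) : KVisible k (arc hn) u v := by
  refine KVisible.symm' (visBF hn (t := 2 * K + 1) (by omega) (by omega) v u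
    (ab_F (by omega) hn (by omega) (by omega)) (af_C (by omega) (by omega))
    (Ico (3 * K + 1) (4 * K)) (by rw [Nat.card_Ico]; omega) ?_ ?_)
  · intro w h5 hw
    have := ab_cases hn hw
    rw [mem_Ico]
    omega
  · intro w h5 hw
    omega

lemma v6 (hn : 5 * K ≤ n) {k : ℕ} (hk : K = k + 1) (u v : Fin n) (h1 : K ≤ (u : ℕ))
    (h1' : (u : ℕ) < 2 * K) (h2 : n ≤ (v : ℕ) + K) : KVisible k (arc hn) u v := by
  have hvn := v.2
  refine KVisible.symm' (visBF hn (t := u + 2 * K + 1) (by omega) (by omega) v u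
    (ab_F (by omega) hn (by omega) (by omega)) (af_B h1 h1' (by omega))
    (Ico (n - K) v) (by rw [Nat.card_Ico]; omega) ?_ ?_)
  · intro w h5 hw
    have := ab_cases hn hw
    rw [mem_Ico]
    omega
  · intro w h5 hw
    have := af_cases hn hw
    rw [mem_Ico]
    omega

lemma v8 (hn : 5 * K ≤ n) {k : ℕ} (hk : K = k + 1) (u v : Fin n) (h1 : 3 * K ≤ (u : ℕ))
    (h1' : (u : ℕ) < 4 * K) (h2 : n ≤ (v : ℕ) + K) (h3 : (v : ℕ) + 4 * K ≤ n + u) :
    KVisible k (arc hn) u v := by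
  have hvn := v.2
  have key : ∀ t : ℕ, 1 ≤ t → t ≤ 4 * K → AB K n t u → KVisible k (arc hn) u v := by
    intro t ht ht' hab
    refine visBB hn (t := t) ht (by omega) u v (by omega) hab
      (ab_F (by omega) hn (by omega) (by omega)) (Ioo (u : ℕ) (4 * K) ∪ Ico (n - K) v)
      ((card_union_le _ _).trans (by rw [Nat.card_Ioo, Nat.card_Ico]; omega)) ?_
    intro w h4 h5 hw
    have := ab_cases hn hw
    rw [mem_union, mem_Ioo, mem_Ico]
    omega
  rcases Nat.lt_or_ge (3 * K) u with h4 | h4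
  · exact key (u + 1 - K) (by omega) (by omega) (ab_E h4 h1' (by omega))
  · exact key (u + 1 - 2 * K) (by omega) (by omega) (ab_D (by omega) (by omega) h4 (by omega))

lemma v9 (hn : 5 * K ≤ n) {k : ℕ} (hk : K = k + 1) (u v : Fin n) (h1 : 2 * K ≤ (u : ℕ))
    (h1' : (u : ℕ) ≤ 3 * K) (h2 : (v : ℕ) < K) : KVisible k (arc hn) u v := by
  refine visBF hn (t := u + 1 - 2 * K) (by omega) (by omega) u v
    (ab_D (by omega) h1 h1' (by omega)) (af_C h2 (by omega))
    (Ico 0 v) (by rw [Nat.card_Ico]; omega) ?_ ?_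
  · intro w h5 hw
    have := ab_cases hn hw
    rw [mem_Ico]
    omega
  · intro w h5 hw
    rw [mem_Ico]
    omega

lemma v10 (hn : 5 * K ≤ n) {k : ℕ} (hk : K = k + 1) (u v : Fin n) (h1 : 3 * K < (u : ℕ))
    (h1' : (u : ℕ) < 4 * K) (h2 : K ≤ (v : ℕ)) (h3 : (v : ℕ) < 2 * K) :
    KVisible k (arc hn) u v := by
  refine visBF hn (t := u + 1 - K) (by omega) (by omega) u v
    (ab_E h1 h1' (by omega)) (af_B h2 h3 (by omega))
    (Ico K v) (by rw [Nat.card_Ico]; omega) ?_ ?_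
  · intro w h5 hw
    have := ab_cases hn hw
    rw [mem_Ico]
    omega
  · intro w h5 hw
    have := af_cases hn hw
    rw [mem_Ico]
    omega

lemma v12 (hn : 5 * K ≤ n) {k : ℕ} (hk : K = k + 1) (u v : Fin n) (h1 : 4 * K ≤ (u : ℕ))
    (h1' : (u : ℕ) + K < n) (h2 : 3 * K ≤ (v : ℕ)) (h3 : (v : ℕ) < 4 * K) :
    KVisible k (arc hn) u v := by
  refine KVisible.symm' (visFF hn (t := u + 1) (by omega) (by omega) v u (by omega)
    (af_L (by omega) h3) (af_A (by omega) h1 le_rfl) (Ioo (v : ℕ) (4 * K))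
    (by rw [Nat.card_Ioo]; omega) ?_)
  intro w h4 h5 hw
  have := af_cases hn hw
  rw [mem_Ioo]
  omega

lemma v13 (hn : 5 * K ≤ n) {k : ℕ} (hk : K = k + 1) (u v : Fin n) (h1 : n ≤ (u : ℕ) + K)
    (h2 : 2 * K ≤ (v : ℕ)) (h3 : (v : ℕ) < 3 * K) : KVisible k (arc hn) u v := by
  have hun := u.2
  refine visBF hn (t := u + 1) (by omega) (by omega) u v
    (ab_F (by omega) hn h1 le_rfl) (af_L h2 (by omega))
    (Ico (2 * K) v) (by rw [Nat.card_Ico]; omega) ?_ ?_
  · intro w h5 hw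
    have := ab_cases hn hw
    rw [mem_Ico]
    omega
  · intro w h5 hw
    have := af_cases hn hw
    rw [mem_Ico]
    omega

theorem visible (hn : 5 * K ≤ n) {k : ℕ} (hk : K = k + 1) (u v : Fin n) {i : ℕ}
    (hi : i < cc K n u) (hv : (v : ℕ) = qq K n u i) : KVisible k (arc hn) u v := by
  have hun := u.2
  have hvn := v.2
  have hs := qq_spec (by omega) hn hun hi
  rw [← hv] at hs
  clear hv hi
  cases hs
  · exact v1 hn hk u v (by omega) (by omega) (by omega)
  · exact KVisible.symm' (near hn hk v u (by omega) (by omega))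
  · exact v3 hn hk u v (by omega) (by omega) (by omega) (by omega)
  · exact v4 hn hk u v (by omega) (by omega)
  · exact near hn hk u v (by omega) (by omega)
  · exact v6 hn hk u v (by omega) (by omega) (by omega)
  · exact near hn hk u v (by omega) (by omega)
  · exact v8 hn hk u v (by omega) (by omega) (by omega) (by omega)
  · exact v9 hn hk u v (by omega) (by omega) (by omega)
  · exact v10 hn hk u v (by omega) (by omega) (by omega) (by omega)
  · exact near hn hk u v (by omega) (by omega)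
  · exact v12 hn hk u v (by omega) (by omega) (by omega) (by omega)
  · exact v13 hn hk u v (by omega) (by omega) (by omega)
  · exact near hn hk u v (by omega) (by omega)

/-- the graph -/
def graph (hn : 5 * K ≤ n) (k : ℕ) : SimpleGraph (Fin n) where
  Adj u v := u ≠ v ∧ KVisible k (arc hn) u v
  symm := ⟨fun _ _ h => ⟨h.1.symm, KVisible.symm' h.2⟩⟩
  loopless := ⟨fun _ h => h.1 rfl⟩

theorem isSemiArc (hn : 5 * K ≤ n) (k : ℕ) : IsSemiArcVisibility k (graph hn k) := by
  refine ⟨arc hn, fun _ => rfl, fun u v huv => ?_, fun u v huv => ?_⟩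
  · rw [Set.disjoint_left]
    rintro z ⟨φ, -, rfl⟩ ⟨ψ, -, h⟩
    apply huv
    have hn' := congrArg (fun z : ℂ => ‖z‖) h
    unfold pt at hn'
    simp only [norm_mul, Complex.norm_exp_ofReal_mul_I, mul_one, Complex.norm_real,
      Real.norm_eq_abs] at hn'
    change |((u : ℕ) : ℝ) + 1| = |((v : ℕ) : ℝ) + 1| at hn'
    rw [abs_of_pos (by positivity), abs_of_pos (by positivity)] at hn'
    have h2 : ((u : ℕ) : ℝ) = (v : ℕ) := by linarith
    exact Fin.ext (by exact_mod_cast h2)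
  · exact ⟨fun h => h.2, fun h => ⟨huv, h⟩⟩

lemma sum_cc (hn : K ≤ n) : 2 * ∑ x ∈ range n, cc K n x + K * (K + 1) = 4 * K * n := by
  obtain ⟨m, rfl⟩ : ∃ m, n = m + K := ⟨n - K, by omega⟩
  rw [sum_range_add]
  have h1 : ∑ x ∈ range m, cc K (m + K) x = m * (2 * K) := by
    rw [sum_congr rfl (g := fun _ => 2 * K) (fun x hx => by
      have := mem_range.1 hx
      unfold cc
      rw [if_pos (by omega)]), sum_const, card_range, smul_eq_mul]
  have h2 : ∑ x ∈ range K, cc K (m + K) (m + x) = K * K + ∑ x ∈ range K, (K - 1 - x) := by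
    rw [sum_congr rfl (g := fun x => K + (K - 1 - x)) (fun x hx => by
      have := mem_range.1 hx
      unfold cc
      rw [if_neg (by omega)]
      omega), sum_add_distrib, sum_const, card_range, smul_eq_mul]
  have h3 : ∑ x ∈ range K, (K - 1 - x) = ∑ x ∈ range K, x := sum_range_reflect (fun x => x) K
  have h4 := sum_range_id_mul_two K
  rw [h1, h2, h3]
  rcases Nat.eq_zero_or_pos K with rfl | hK
  · simp
  · obtain ⟨k, rfl⟩ : ∃ k, K = k + 1 := ⟨K - 1, by omega⟩
    rw [Nat.add_sub_cancel] at h4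
    nlinarith

theorem edges (hn : 5 * K ≤ n) {k : ℕ} (hk : K = k + 1) :
    ∑ x ∈ range n, cc K n x ≤ (graph hn k).edgeSet.ncard := by
  classical
  have hK : 1 ≤ K := by omega
  let φ : (Σ x : Fin n, Fin (cc K n x)) → Sym2 (Fin n) := fun p =>
    s(p.1, ⟨qq K n p.1 p.2, qq_lt hK hn p.1.2 p.2.2⟩)
  have hφ : Function.Injective φ := by
    rintro ⟨x, i⟩ ⟨y, j⟩ h
    simp only [φ] at h
    rw [Sym2.eq_iff] at h
    rcases h with ⟨h1, h2⟩ | ⟨h1, h2⟩
    · subst h1
      have h3 : qq K n x i = qq K n x j := congrArg Fin.val h2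
      have h4 := qq_inj hK hn x.2 i.2 j.2 h3
      have : i = j := Fin.ext h4
      rw [this]
    · exfalso
      exact qq_swap hK hn x.2 i.2 y.2 j.2 (congrArg Fin.val h2) (congrArg Fin.val h1).symm
  have h1 : (univ.image φ).card = ∑ x ∈ range n, cc K n x := by
    rw [card_image_of_injective _ hφ, card_univ, Fintype.card_sigma]
    simp only [Fintype.card_fin]
    exact Fin.sum_univ_eq_sum_range (fun x => cc K n x) n
  rw [← h1, ← Set.ncard_coe_finset]
  apply Set.ncard_le_ncard _ (Set.toFinite _)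
  intro e he
  rw [coe_image] at he
  obtain ⟨⟨x, i⟩, -, rfl⟩ := he
  rw [SimpleGraph.mem_edgeSet]
  refine ⟨fun h => qq_ne hK hn x.2 i.2 (congrArg Fin.val h), ?_⟩
  exact visible hn hk x _ i.2 rfl

/-- **the lower bound** -/
theorem lower (k n : ℕ) (h : 5 * (k + 1) ≤ n) : ∃ G : SimpleGraph (Fin n),
    IsSemiArcVisibility k G ∧ 4 * (k + 1) * n ≤ 2 * G.edgeSet.ncard + (k + 1) * (k + 2) := by
  refine ⟨graph (K := k + 1) h k, isSemiArc h k, ?_⟩
  have h1 := edges (K := k + 1) h rfl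
  have h2 := sum_cc (K := k + 1) (n := n) (by omega)
  have h3 : (k + 1) * (k + 1 + 1) = (k + 1) * (k + 2) := by ring
  omega

end Pool.Agent.V7H95.SA
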