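import Mathlib
import Pool.Agent.Results.MP_e2d93f_co.AllK

/-!
# Semi-arc `k`-visibility graphs with many edges: the construction
-/

set_option autoImplicit false

namespace Pool.Agent.V7H95.SA

open Pool.Agent.Results.MP_e2d93f_co.AllK

/-- The rank of the event of the arc `w` (its end, or its end on the opposite ray). -/
def tau (K w : ℕ) : ℕ :=
  if w < K then 2 * K + 1 - w else if w < 2 * K then w + 2 * K + 1
  else if w ≤ 3 * K then w - 2 * K + 1 else if w < 4 * K then w - K + 1 else w + 1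

/-- The long arcs. -/
def Long (K n w : ℕ) : Prop := (2 * K ≤ w ∧ w < 4 * K) ∨ n ≤ w + K

/-- The arc meets the ray before the event number `t`. -/
def AF (K n t w : ℕ) : Prop := Long K n w ∨ t ≤ tau K w

/-- The arc meets the opposite ray before the event number `t`. -/
def AB (K n t w : ℕ) : Prop := Long K n w ∧ t ≤ tau K w

lemma tau_spec (K w : ℕ) :
    (w < K ∧ tau K w = 2 * K + 1 - w) ∨ (K ≤ w ∧ w < 2 * K ∧ tau K w = w + 2 * K + 1) ∨
    (2 * K ≤ w ∧ w ≤ 3 * K ∧ tau K w = w - 2 * K + 1) ∨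
    (3 * K < w ∧ w < 4 * K ∧ tau K w = w - K + 1) ∨ (4 * K ≤ w ∧ 3 * K < w ∧ tau K w = w + 1) ∨
    (K = 0 ∧ w = 0 ∧ tau K w = 1) := by
  unfold tau
  split_ifs <;> omega

variable {K n : ℕ}

/-- the unit -/
noncomputable def uu (n : ℕ) : ℝ := Real.pi / (n + 1)

lemma uu_pos (n : ℕ) : 0 < uu n := by
  unfold uu
  have := Real.pi_pos
  positivity

lemma uu_mul (n : ℕ) : uu n * (n + 1) = Real.pi := by
  unfold uu
  have : ((n : ℝ) + 1) ≠ 0 := by positivity
  field_simp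

open Classical in
/-- the length of the arc -/
noncomputable def len (K n w : ℕ) : ℝ := (if Long K n w then Real.pi else 0) + tau K w * uu n

lemma tau_pos (K w : ℕ) : 1 ≤ tau K w := by
  unfold tau
  split_ifs <;> omega

lemma tau_le (hn : 5 * K ≤ n) {w : ℕ} (hw : w < n) : tau K w ≤ n := by
  unfold tau
  split_ifs <;> omega

lemma tau_mul_le (hn : 5 * K ≤ n) {w : ℕ} (hw : w < n) : (tau K w : ℝ) * uu n < Real.pi := by
  have h1 : (tau K w : ℝ) ≤ n := by exact_mod_cast tau_le hn hw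
  have h2 := uu_pos n
  have h3 := uu_mul n
  nlinarith

lemma len_nonneg (K n w : ℕ) : 0 ≤ len K n w := by
  unfold len
  have h1 := Real.pi_pos
  have h2 := uu_pos n
  split_ifs <;> positivity

lemma len_lt (hn : 5 * K ≤ n) {w : ℕ} (hw : w < n) : len K n w < 2 * Real.pi := by
  unfold len
  have h1 := Real.pi_pos
  have h2 := tau_mul_le hn hw
  split_ifs <;> linarith

/-- the arcs -/
noncomputable def arc (hn : 5 * K ≤ n) (w : Fin n) : Arc where
  r := (w : ℕ) + 1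
  a := 0
  b := len K n w
  hr := by positivity
  ha0 := le_rfl
  ha1 := by have := Real.pi_pos; linarith
  hab := len_nonneg K n w
  hb := by have := len_lt hn w.2; linarith

/-- the directions before the event number `t` -/
noncomputable def f1 (n t : ℕ) : ℝ := (t - 1 / 2) * uu n
/-- the directions before the event number `t` -/
noncomputable def f2 (n t : ℕ) : ℝ := t * uu n

lemma f1_pos {t : ℕ} (ht : 1 ≤ t) : 0 < f1 n t := by
  unfold f1
  have h1 : (1 : ℝ) ≤ t := by exact_mod_cast ht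
  exact mul_pos (by linarith) (uu_pos n)

lemma f1_lt (n t : ℕ) : f1 n t < f2 n t := by
  unfold f1 f2
  have := uu_pos n
  nlinarith

lemma f2_lt {t : ℕ} (ht : t ≤ n) : f2 n t < Real.pi := by
  unfold f2
  have h1 : (t : ℝ) ≤ n := by exact_mod_cast ht
  have h2 := uu_pos n
  have h3 := uu_mul n
  nlinarith

lemma le_of_half {a t : ℕ} (h : f1 n t ≤ a * uu n) : t ≤ a := by
  unfold f1 at h
  have h1 := le_of_mul_le_mul_right h (uu_pos n)
  by_contra hlt
  have h2 : ((a : ℝ) + 1) ≤ t := by exact_mod_cast not_le.1 hlt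
  linarith

/-- an arc which contains a direction of the ray before the event `t` -/
lemma af_of (hn : 5 * K ≤ n) {w t : ℕ} (h : f1 n t ≤ len K n w) : AF K n t w := by
  unfold len at h
  unfold AF
  by_cases hL : Long K n w
  · exact Or.inl hL
  · right
    rw [if_neg hL, zero_add] at h
    exact le_of_half h

lemma ab_of (hn : 5 * K ≤ n) {w t : ℕ} (hw : w < n) (ht : 1 ≤ t)
    (h : f1 n t + Real.pi ≤ len K n w) : AB K n t w := by
  unfold len at h
  unfold AB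
  by_cases hL : Long K n w
  · rw [if_pos hL] at h
    exact ⟨hL, le_of_half (by linarith)⟩
  · exfalso
    rw [if_neg hL, zero_add] at h
    have h1 := tau_mul_le hn hw
    have h2 := f1_pos (n := n) ht
    linarith

lemma len_ge_af {w t : ℕ} (hn : 5 * K ≤ n) (ht : t ≤ n) (h : AF K n t w) : f2 n t ≤ len K n w := by
  unfold len f2
  have hu := uu_pos n
  rcases h with h | h
  · rw [if_pos h]
    have h1 := f2_lt (n := n) ht
    unfold f2 at h1
    have h2 : 0 ≤ (tau K w : ℝ) * uu n := by positivity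
    linarith
  · have h1 : (t : ℝ) ≤ tau K w := by exact_mod_cast h
    have h2 : (t : ℝ) * uu n ≤ tau K w * uu n := mul_le_mul_of_nonneg_right h1 hu.le
    have := Real.pi_pos
    split_ifs <;> linarith

lemma len_ge_ab {w t : ℕ} (h : AB K n t w) : f2 n t + Real.pi ≤ len K n w := by
  unfold len f2
  have hu := uu_pos n
  obtain ⟨h, h'⟩ := h
  rw [if_pos h]
  have h1 : (t : ℝ) ≤ tau K w := by exact_mod_cast h'
  have h2 : (t : ℝ) * uu n ≤ tau K w * uu n := mul_le_mul_of_nonneg_right h1 hu.le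
  linarith

/-- the signed radius -/
def Sg (K n t : ℕ) (w : ℕ) (z : ℤ) : Prop :=
  (z = w + 1 ∧ AF K n t w) ∨ (z = -(w + 1 : ℤ) ∧ AB K n t w)

lemma side_sub (hn : 5 * K ≤ n) {t : ℕ} (ht : 1 ≤ t) (htn : t ≤ n) (u : Fin n) {z : ℤ}
    (h : Sg K n t u z) : side (z : ℝ) (f1 n t) (f2 n t) ⊆ (arc hn u).carrier := by
  rintro p ⟨φ, hφ, rfl⟩
  have h0 := f1_pos (n := n) ht
  rcases h with ⟨rfl, h⟩ | ⟨rfl, h⟩
  · refine ⟨φ, ⟨le_trans h0.le hφ.1, hφ.2.trans (len_ge_af hn htn h)⟩, ?_⟩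
    push_cast
    rfl
  · have hpi := Real.pi_pos
    refine ⟨φ + Real.pi, ⟨?_, ?_⟩, ?_⟩
    · change 0 ≤ φ + Real.pi
      linarith [hφ.1]
    · have := len_ge_ab h
      change φ + Real.pi ≤ len K n u
      linarith [hφ.2]
    · rw [← pt_neg]
      push_cast
      congr 1

/-- the visibility lemma -/
lemma vis (hn : 5 * K ≤ n) {k t : ℕ} (ht : 1 ≤ t) (htn : t ≤ n) (u v : Fin n) {a b : ℤ}
    (hab : a ≠ b) (ha : Sg K n t u a) (hb : Sg K n t v b) (S : Finset ℕ) (hS : S.card ≤ k)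
    (h : ∀ w : ℕ, w < n → w ≠ u → w ≠ v → ∀ z : ℤ, Sg K n t w z → min a b ≤ z → z ≤ max a b →
      w ∈ S) : KVisible k (arc hn) u v := by
  have ha0 : a ≠ 0 := by rcases ha with ⟨h, -⟩ | ⟨h, -⟩ <;> omega
  have hb0 : b ≠ 0 := by rcases hb with ⟨h, -⟩ | ⟨h, -⟩ <;> omega
  refine ⟨a, b, f1 n t, f2 n t, by exact_mod_cast ha0, by exact_mod_cast hb0,
    by exact_mod_cast hab, f1_lt n t, ?_, side_sub hn ht htn u ha, side_sub hn ht htn v hb, ?_⟩
  · have h1 := f2_lt (n := n) htn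
    have h2 := f1_pos (n := n) ht
    linarith
  · have hsub : (fun w : Fin n => (w : ℕ)) '' {w : Fin n | w ≠ u ∧ w ≠ v ∧
        (cone (a : ℝ) (b : ℝ) (f1 n t) (f2 n t) ∩ (arc hn w).carrier).Nonempty} ⊆ (S : Set ℕ) := by
      rintro _ ⟨w, ⟨hwu, hwv, ⟨p, ⟨φ, hφ, r, hr, hp⟩, ⟨ψ, hψ, hp'⟩⟩⟩, rfl⟩
      have h1 := f1_pos (n := n) ht
      have h2 := f2_lt (n := n) htn
      have hψ2 : ψ < 2 * Real.pi := lt_of_le_of_lt hψ.2 (len_lt hn w.2)
      have hr0 : (0 : ℝ) < (w : ℕ) + 1 := by positivity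
      have hz : ∃ z : ℤ, Sg K n t w z ∧ (z : ℝ) = r := by
        rcases pt_eq hr0 (lt_of_lt_of_le h1 hφ.1) (lt_of_le_of_lt hφ.2 h2) hψ.1 hψ2
          (hp.symm.trans hp') with ⟨e1, e2⟩ | ⟨e1, e2⟩
        · refine ⟨(w : ℕ) + 1, Or.inl ⟨rfl, af_of hn ?_⟩, by rw [e1]; push_cast; rfl⟩
          have := hψ.2
          change ψ ≤ len K n w at this
          linarith [hφ.1]
        · refine ⟨-((w : ℕ) + 1 : ℤ), Or.inr ⟨rfl, ab_of hn w.2 ht ?_⟩, by rw [e1]; push_cast; rfl⟩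
          have := hψ.2
          change ψ ≤ len K n w at this
          linarith [hφ.1]
      obtain ⟨z, hz, hzr⟩ := hz
      rw [Set.mem_uIcc] at hr
      refine h w w.2 (fun e => hwu (Fin.ext e)) (fun e => hwv (Fin.ext e)) z hz ?_ ?_
      · rcases hr with ⟨h3, -⟩ | ⟨h3, -⟩
        · have : a ≤ z := by rw [← hzr] at h3; exact_mod_cast h3
          exact (min_le_left _ _).trans this
        · have : b ≤ z := by rw [← hzr] at h3; exact_mod_cast h3
          exact (min_le_right _ _).trans this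
      · rcases hr with ⟨-, h3⟩ | ⟨-, h3⟩
        · have : z ≤ b := by rw [← hzr] at h3; exact_mod_cast h3
          exact this.trans (le_max_right _ _)
        · have : z ≤ a := by rw [← hzr] at h3; exact_mod_cast h3
          exact this.trans (le_max_left _ _)
    have hinj : Set.InjOn (fun w : Fin n => (w : ℕ)) {w : Fin n | w ≠ u ∧ w ≠ v ∧
        (cone (a : ℝ) (b : ℝ) (f1 n t) (f2 n t) ∩ (arc hn w).carrier).Nonempty} :=
      fun x _ y _ hxy => Fin.ext hxy
    rw [← hinj.encard_image]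
    refine (Set.encard_le_encard hsub).trans ?_
    rw [Set.encard_coe_eq_coe_finsetCard]
    exact_mod_cast hS

/-- both on the ray -/
lemma visFF (hn : 5 * K ≤ n) {k t : ℕ} (ht : 1 ≤ t) (htn : t ≤ n) (u v : Fin n)
    (huv : (u : ℕ) < v) (hu : AF K n t u) (hv : AF K n t v) (S : Finset ℕ) (hS : S.card ≤ k)
    (h : ∀ w : ℕ, (u : ℕ) < w → w < v → AF K n t w → w ∈ S) : KVisible k (arc hn) u v := by
  refine vis hn ht htn u v (a := (u : ℕ) + 1) (b := (v : ℕ) + 1) (by omega) (Or.inl ⟨rfl, hu⟩)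
    (Or.inl ⟨rfl, hv⟩) S hS ?_
  rintro w hw hwu hwv z (⟨rfl, hz⟩ | ⟨rfl, hz⟩) h1 h2
  · exact h w (by omega) (by omega) hz
  · exfalso
    omega

/-- both on the opposite ray -/
lemma visBB (hn : 5 * K ≤ n) {k t : ℕ} (ht : 1 ≤ t) (htn : t ≤ n) (u v : Fin n)
    (huv : (u : ℕ) < v) (hu : AB K n t u) (hv : AB K n t v) (S : Finset ℕ) (hS : S.card ≤ k)
    (h : ∀ w : ℕ, (u : ℕ) < w → w < v → AB K n t w → w ∈ S) : KVisible k (arc hn) u v := by
  refine vis hn ht htn u v (a := -((u : ℕ) + 1 : ℤ)) (b := -((v : ℕ) + 1 : ℤ)) (by omega)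
    (Or.inr ⟨rfl, hu⟩) (Or.inr ⟨rfl, hv⟩) S hS ?_
  rintro w hw hwu hwv z (⟨rfl, hz⟩ | ⟨rfl, hz⟩) h1 h2
  · exfalso
    omega
  · exact h w (by omega) (by omega) hz

/-- `u` on the opposite ray, `v` on the ray -/
lemma visBF (hn : 5 * K ≤ n) {k t : ℕ} (ht : 1 ≤ t) (htn : t ≤ n) (u v : Fin n)
    (hu : AB K n t u) (hv : AF K n t v) (S : Finset ℕ) (hS : S.card ≤ k)
    (h : ∀ w : ℕ, w < u → AB K n t w → w ∈ S) (h' : ∀ w : ℕ, w < v → AF K n t w → w ∈ S) :
    KVisible k (arc hn) u v := by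
  refine vis hn ht htn u v (a := -((u : ℕ) + 1 : ℤ)) (b := (v : ℕ) + 1) (by omega)
    (Or.inr ⟨rfl, hu⟩) (Or.inl ⟨rfl, hv⟩) S hS ?_
  rintro w hw hwu hwv z (⟨rfl, hz⟩ | ⟨rfl, hz⟩) h1 h2
  · exact h' w (by omega) hz
  · exact h w (by omega) hz

lemma KVisible.symm' {V : Type} {k : ℕ} {A : V → Arc} {u v : V} (h : KVisible k A u v) :
    KVisible k A v u := by
  obtain ⟨s, t, φ₁, φ₂, h1, h2, h3, h4, h5, h6, h7, h8⟩ := h
  refine ⟨t, s, φ₁, φ₂, h2, h1, h3.symm, h4, h5, h7, h6, ?_⟩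
  have e : {w : V | w ≠ v ∧ w ≠ u ∧ (cone t s φ₁ φ₂ ∩ (A w).carrier).Nonempty} =
      {w : V | w ≠ u ∧ w ≠ v ∧ (cone s t φ₁ φ₂ ∩ (A w).carrier).Nonempty} := by
    ext w
    simp only [Set.mem_ofPred_eq]
    unfold cone
    rw [Set.uIcc_comm t s]
    tauto
  rw [e]
  exact h8

end Pool.Agent.V7H95.SA
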